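import Pool.Agent.Lib.MP_c80ac4_an.DW.Defs

/-!
# Row D6 (helper3): uniform decay for three digits

PROOF IN WORDS. As in `DZ/D5.lean` (copy it). `‖g1 b c t‖ ≤ 1`, and with `x = t b`, `y = t c`
`1 - ‖g1 b c t‖ ^ 2 = (2/9) [(1 - cos 2πx) + (1 - cos 2πy) + (1 - cos 2π(x-y))]
≥ (4/9) (sin (πx)^2 + sin (πy)^2) ≥ (16/9) ((x - round x)^2 + (y - round y)^2)`
(`|sin (πx)| = |sin (π (x - round x))| ≥ 2 |x - round x|`), and `1 - ‖g‖ ≥ (1 - ‖g‖^2)/2`.
So if the decreasing products `∏ i < k, ‖g1 b c (t θ^i)‖` do not tend to `0` for some `t ≠ 0`, then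
`∑ (1 - ‖g1 b c (t θ^i)‖) < ∞` and both series in `H` converge, a contradiction. The products are
continuous in `t` and decreasing in `k`; Dini on `[c0, C0]`.
(`e x = exp (2 π x I)`; lemmas `e_add`, `norm_e`, `e_pow` in `Local/Ratio.lean`.)
-/

namespace Forcing.DW

open Forcing.Ratio

private lemma d6_sin (y : ℝ) : 2 * |y - round y| ≤ |Real.sin (Real.pi * y)| := by
  have h1 : |y - round y| ≤ 1 / 2 := abs_sub_round y
  have h2 : Real.sin (Real.pi * (y - round y)) = (-1) ^ (round y) * Real.sin (Real.pi * y) := by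
    rw [mul_sub, mul_comm Real.pi ((round y : ℤ) : ℝ)]
    exact Real.sin_sub_int_mul_pi _ _
  have h3 : |Real.sin (Real.pi * (y - round y))| = |Real.sin (Real.pi * y)| := by
    rw [h2, abs_mul, abs_zpow, abs_neg, abs_one, one_zpow, one_mul]
  have h4 : |Real.pi * (y - round y)| ≤ Real.pi / 2 := by
    rw [abs_mul, abs_of_pos Real.pi_pos]
    nlinarith [Real.pi_pos]
  have h5 := Real.mul_abs_le_abs_sin h4
  rw [h3, abs_mul, abs_of_pos Real.pi_pos] at h5
  have h6 : 2 / Real.pi * (Real.pi * |y - round y|) = 2 * |y - round y| := by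
    field_simp
  linarith

private lemma d6_sq (y : ℝ) : 8 * (y - round y) ^ 2 ≤ 1 - Real.cos (2 * Real.pi * y) := by
  have h1 := d6_sin y
  have h2 : (2 * |y - round y|) ^ 2 ≤ Real.sin (Real.pi * y) ^ 2 := by
    rw [← sq_abs (Real.sin _)]
    exact pow_le_pow_left₀ (by positivity) h1 2
  have h3 : Real.cos (2 * Real.pi * y) = 1 - 2 * Real.sin (Real.pi * y) ^ 2 := by
    rw [mul_assoc, Real.cos_two_mul]
    linarith [Real.sin_sq_add_cos_sq (Real.pi * y)]
  have h4 : (2 * |y - round y|) ^ 2 = 4 * (y - round y) ^ 2 := by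
    rw [mul_pow, sq_abs]
    norm_num
  linarith

private lemma d6_re (x : ℝ) : (e x).re = Real.cos (2 * Real.pi * x) := by
  unfold e
  exact Complex.exp_ofReal_mul_I_re _

private lemma d6_im (x : ℝ) : (e x).im = Real.sin (2 * Real.pi * x) := by
  unfold e
  exact Complex.exp_ofReal_mul_I_im _

private lemma d6_norm_le (b c t : ℝ) : ‖g1 b c t‖ ≤ 1 := by
  unfold g1
  rw [norm_div]
  have h := norm_add₃_le (a := (1 : ℂ)) (b := e (t * b)) (c := e (t * c))
  rw [norm_e, norm_e, norm_one] at h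
  have h3 : ‖(3 : ℂ)‖ = 3 := by norm_num
  rw [h3]
  linarith

private lemma d6_low (b c t : ℝ) :
    (8 / 9) * ((t * b - round (t * b)) ^ 2 + (t * c - round (t * c)) ^ 2) ≤ 1 - ‖g1 b c t‖ := by
  have h1 := d6_norm_le b c t
  have h0 : 0 ≤ ‖g1 b c t‖ := norm_nonneg _
  have hx := d6_sq (t * b)
  have hy := d6_sq (t * c)
  have hn : 9 * ‖g1 b c t‖ ^ 2 = (1 + Real.cos (2 * Real.pi * (t * b)) + Real.cos (2 * Real.pi * (t * c))) ^ 2
      + (Real.sin (2 * Real.pi * (t * b)) + Real.sin (2 * Real.pi * (t * c))) ^ 2 := by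
    have h2 : ‖g1 b c t‖ = ‖1 + e (t * b) + e (t * c)‖ / 3 := by
      unfold g1
      rw [norm_div]
      norm_num
    rw [h2, div_pow, ← Complex.normSq_eq_norm_sq, Complex.normSq_apply]
    simp only [Complex.add_re, Complex.add_im, Complex.one_re, Complex.one_im, d6_re, d6_im]
    ring
  set X := 2 * Real.pi * (t * b)
  set Y := 2 * Real.pi * (t * c)
  have e1 := Real.sin_sq_add_cos_sq X
  have e2 := Real.sin_sq_add_cos_sq Y
  have e3 : Real.cos X * Real.cos Y + Real.sin X * Real.sin Y ≤ 1 := by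
    rw [← Real.cos_sub]
    exact Real.cos_le_one _
  have hsq : ‖g1 b c t‖ ^ 2 ≤ 1 - (16 / 9) * ((t * b - round (t * b)) ^ 2 + (t * c - round (t * c)) ^ 2) := by
    nlinarith
  nlinarith

private lemma d6_pt (f : ℕ → ℝ) (f0 : ∀ i, 0 ≤ f i) (f1 : ∀ i, f i ≤ 1)
    (H : ¬ Summable fun j : ℕ => 1 - f j) (ε : ℝ) (hε : 0 < ε) :
    ∃ k : ℕ, ∏ i ∈ Finset.range k, f i < ε := by
  by_contra hcon
  push Not at hcon
  apply H
  have hpos : ∀ i, 0 < f i := by
    intro i
    rcases (f0 i).lt_or_eq with h | h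
    · exact h
    · exfalso
      have h1 := hcon (i + 1)
      rw [Finset.prod_range_succ, ← h, mul_zero] at h1
      linarith
  refine summable_of_sum_range_le (c := - Real.log ε) (fun i => ?_) (fun k => ?_)
  · have := f1 i
    linarith
  · have h1 : ∀ i ∈ Finset.range k, 1 - f i ≤ - Real.log (f i) := by
      intro i _
      have := Real.log_le_sub_one_of_pos (hpos i)
      linarith
    refine (Finset.sum_le_sum h1).trans ?_
    rw [Finset.sum_neg_distrib, ← Real.log_prod (fun i _ => (hpos i).ne')]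
    have := Real.log_le_log hε (hcon k)
    linarith

private lemma d6_cont (b c r : ℝ) : Continuous fun t : ℝ => ‖g1 b c (t * r)‖ := by
  unfold g1 e
  fun_prop

theorem unif_decay3 {θ b c : ℝ} (hθ : 1 < θ)
    (H : ∀ t : ℝ, t ≠ 0 →
      ¬ ((Summable fun j : ℕ => (t * b * θ ^ j - round (t * b * θ ^ j)) ^ 2) ∧
         (Summable fun j : ℕ => (t * c * θ ^ j - round (t * c * θ ^ j)) ^ 2)))
    (c0 C0 ε : ℝ) (hc0 : 0 < c0) (hε : 0 < ε) :
    ∃ k : ℕ, ∀ t : ℝ, c0 ≤ t → t ≤ C0 →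
      ∏ i ∈ Finset.range k, ‖g1 b c (t * θ ^ i)‖ ≤ ε := by
  by_contra hcon
  push Not at hcon
  have hcont : ∀ k : ℕ, Continuous fun t : ℝ => ∏ i ∈ Finset.range k, ‖g1 b c (t * θ ^ i)‖ := by
    intro k
    exact continuous_finsetProd _ fun i _ => d6_cont b c (θ ^ i)
  obtain ⟨t, ht⟩ := IsCompact.nonempty_iInter_of_sequence_nonempty_isCompact_isClosed
    (fun k : ℕ => Set.Icc c0 C0 ∩ {t : ℝ | ε ≤ ∏ i ∈ Finset.range k, ‖g1 b c (t * θ ^ i)‖})
    (fun k => by
      rintro t ⟨h1, h2⟩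
      refine ⟨h1, ?_⟩
      have h3 : ε ≤ ∏ i ∈ Finset.range (k + 1), ‖g1 b c (t * θ ^ i)‖ := h2
      rw [Finset.prod_range_succ] at h3
      refine h3.trans (mul_le_of_le_one_right (Finset.prod_nonneg fun i _ => norm_nonneg _) (d6_norm_le _ _ _)))
    (fun k => by
      obtain ⟨t, h1, h2, h3⟩ := hcon k
      exact ⟨t, ⟨h1, h2⟩, h3.le⟩)
    (isCompact_Icc.inter_right (isClosed_le continuous_const (hcont 0)))
    (fun k => isClosed_Icc.inter (isClosed_le continuous_const (hcont k)))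
  have h0 : ∀ k : ℕ, t ∈ Set.Icc c0 C0 ∧ ε ≤ ∏ i ∈ Finset.range k, ‖g1 b c (t * θ ^ i)‖ :=
    fun k => Set.mem_iInter.1 ht k
  have htpos : 0 < t := hc0.trans_le (h0 0).1.1
  have hns : ¬ Summable fun j : ℕ => 1 - ‖g1 b c (t * θ ^ j)‖ := by
    intro hs
    apply H t htpos.ne'
    constructor
    · refine Summable.of_nonneg_of_le (fun i => sq_nonneg _) (fun i => ?_) (hs.mul_left (9 / 8))
      have h1 := d6_low b c (t * θ ^ i)
      have e1 : t * θ ^ i * b = t * b * θ ^ i := by ring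
      rw [e1] at h1
      have h2 := sq_nonneg (t * θ ^ i * c - round (t * θ ^ i * c))
      nlinarith
    · refine Summable.of_nonneg_of_le (fun i => sq_nonneg _) (fun i => ?_) (hs.mul_left (9 / 8))
      have h1 := d6_low b c (t * θ ^ i)
      have e1 : t * θ ^ i * c = t * c * θ ^ i := by ring
      rw [e1] at h1
      have h2 := sq_nonneg (t * θ ^ i * b - round (t * θ ^ i * b))
      nlinarith
  obtain ⟨k, hk⟩ := d6_pt (fun i => ‖g1 b c (t * θ ^ i)‖) (fun i => norm_nonneg _)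
    (fun i => d6_norm_le _ _ _) hns ε hε
  exact absurd (h0 k).2 (not_le.2 hk)

end Forcing.DW
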