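import Pool.Agent.Lib.MP_c80ac4_an.DW.Est
import Pool.Agent.Lib.MP_c80ac4_an.DW.D6
import Pool.Agent.Lib.MP_c80ac4_an.RieszC

/-! # Sets with three digits satisfy the Sidon inequalities if all characters decay -/

namespace Forcing.DW

open Forcing.Ratio Finset

theorem char_le {θ p r ρ : ℝ} {α : ℕ → ℝ → ℝ} (hθ : 1 < θ) (hρ0 : 0 ≤ ρ) (hρ1 : ρ ≤ 1)
    (hα : ∀ j x, |α j x| ≤ 1) {c C ε : ℝ} {k : ℕ}
    (hk : ∀ t : ℝ, c ≤ t → t ≤ C → ∏ i ∈ Finset.range k, ‖g1 p r (t * θ ^ i)‖ ≤ ε) (m : ℝ) {j : ℕ}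
    (hj : k ≤ 2 * j) (h1 : c * (θ ^ 2) ^ j ≤ |m|) (h2 : |m| ≤ C * (θ ^ 2) ^ j) :
    ‖EE θ p r ρ α j (fun x => e (m * x))‖ ≤ ε + ρ := by
  have hT : 0 < (θ ^ 2) ^ j := by positivity
  refine (EE_char hρ0 hρ1 hα m j).trans ?_
  have h3 := prod_gam (by linarith : 0 < θ) p r m 0 j
  rw [zero_add, ← Finset.range_eq_Ico] at h3
  rw [h3]
  have hneg : ∀ t : ℝ, ‖g1 p r (-t)‖ = ‖g1 p r t‖ := by
    intro t
    have h : g1 p r (-t) = (starRingEnd ℂ) (g1 p r t) := by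
      unfold g1
      rw [map_div₀, map_add, map_add, map_one, ← e_neg', ← e_neg', map_ofNat]
      congr 3 <;> ring_nf
    rw [h, RCLike.norm_conj]
  have h4 : ∏ l ∈ range (2 * j), ‖g1 p r (m / (θ ^ 2) ^ j * θ ^ l)‖ =
      ∏ l ∈ range (2 * j), ‖g1 p r (|m| / (θ ^ 2) ^ j * θ ^ l)‖ := by
    refine prod_congr rfl fun l _ => ?_
    rcases abs_cases m with ⟨h, _⟩ | ⟨h, _⟩
    · rw [h]
    · rw [h, ← hneg]
      congr 2
      ring
  rw [h4]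
  have h5 := prod_g1_anti hj p r (fun l => |m| / (θ ^ 2) ^ j * θ ^ l)
  have h6 := hk (|m| / (θ ^ 2) ^ j) (by rwa [le_div_iff₀ hT]) (by rwa [div_le_iff₀ hT])
  linarith

theorem sidonOn_digit3 {θ d₀ d₁ d₂ : ℝ} (hθ : 1 < θ) (hd : d₀ ≠ d₁)
    (H : ∀ t : ℝ, t ≠ 0 →
      ¬ ((Summable fun j : ℕ =>
            (t * (d₁ - d₀) * θ ^ j - round (t * (d₁ - d₀) * θ ^ j)) ^ 2) ∧
         (Summable fun j : ℕ =>
            (t * (d₂ - d₀) * θ ^ j - round (t * (d₂ - d₀) * θ ^ j)) ^ 2))) :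
    SidonOn (e '' digitSet θ {d₀, d₁, d₂}) := by
  classical
  intro q hq
  set p : ℝ := d₁ - d₀ with hpdef
  set r' : ℝ := d₂ - d₀ with hrdef
  have hp : p ≠ 0 := sub_ne_zero.2 hd.symm
  have hT : 1 < θ ^ 2 := by nlinarith
  have hT0 : 0 < θ ^ 2 := by positivity
  have hq0 : 0 < q := by linarith
  have hqi : 1 / q < 1 := by rw [div_lt_one hq0]; exact hq
  have hqi0 : 0 < 1 / q := by positivity
  obtain ⟨t0, b0, ht0, ht1, hb0, hown⟩ := own hθ hp r'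
  obtain ⟨L, hL⟩ := pow_unbounded_of_one_lt (θ ^ 2) hq
  have hL0 : (0 : ℝ) ≤ L := Nat.cast_nonneg L
  set ε : ℝ := b0 / (16 * (L + 1)) with hε
  have hε0 : 0 < ε := by positivity
  obtain ⟨I, hI⟩ := unif_decay3 hθ H 1 (θ ^ 2) ε one_pos hε0
  obtain ⟨k, hk⟩ := unif_decay3 hθ H ((1 - 1 / q) * t0) (2 * (θ ^ 2) ^ (1 + I)) ε
    (mul_pos (by linarith) ht0) hε0
  set ρ : ℝ := min ε 1 with hρ
  have hρ0 : 0 < ρ := lt_min hε0 one_pos
  have hρ1 : ρ ≤ 1 := min_le_right _ _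
  have hρε : ρ ≤ ε := min_le_left _ _
  obtain ⟨N₁, hN₁⟩ := exists_nat_ge ((θ ^ 2) ^ (k + 1))
  refine ⟨N₁, 8 * (L + 1) / (ρ * b0), fun s c M hs hM0 hM => ?_⟩
  set S := ∑ n ∈ s, ‖c n‖ with hS
  have hS0 : 0 ≤ S := sum_nonneg fun _ _ => norm_nonneg _
  -- own windows
  have hw : ∀ n : ℕ, ∃ j : ℕ, 1 ≤ n → t0 * (θ ^ 2) ^ j ≤ n ∧ (n : ℝ) < t0 * (θ ^ 2) ^ (j + 1) := by
    intro n
    by_cases hn : 1 ≤ n
    · obtain ⟨j, hj⟩ := DZ.exists_window hθ ht0 ht1 hn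
      exact ⟨j, fun _ => hj⟩
    · exact ⟨0, fun h => absurd h hn⟩
  choose jn hjn using hw
  have hs1 : ∀ n ∈ s, 1 ≤ n := fun n hn => (hs.1 n hn).1
  -- the number of windows
  obtain ⟨J, hJ⟩ := pow_unbounded_of_one_lt ((∑ n ∈ s, (n : ℝ)) / t0) hT
  have hJn : ∀ n ∈ s, (n : ℝ) < t0 * (θ ^ 2) ^ J := by
    intro n hn
    have h1 : (n : ℝ) ≤ ∑ n ∈ s, (n : ℝ) :=
      single_le_sum (f := fun n : ℕ => (n : ℝ)) (fun _ _ => Nat.cast_nonneg _) hn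
    rw [div_lt_iff₀ ht0] at hJ
    linarith
  have hjJ : ∀ n ∈ s, jn n < J := by
    intro n hn
    have h1 := (hjn n (hs1 n hn)).1
    have h2 := hJn n hn
    have h3 : (θ ^ 2) ^ (jn n) < (θ ^ 2) ^ J := lt_of_mul_lt_mul_left (lt_of_le_of_lt h1 h2) ht0.le
    exact (pow_lt_pow_iff_right₀ hT).1 h3
  -- the rotated coefficients
  set x0 : ℝ := d₀ / (θ - 1) with hx0
  set c' : ℕ → ℂ := fun n => c n * e (n * x0) with hc'
  have hcn : ∀ n, ‖c' n‖ = ‖c n‖ := fun n => by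
    simp only [hc']
    rw [norm_mul, norm_e, mul_one]
  have hM' : ∀ x ∈ Reach θ p r' J, ‖∑ n ∈ s, c' n * e (n * x)‖ ≤ M := by
    intro x hx
    have h1 := hM (e (x0 + x)) ⟨_, mem_digitSet hθ d₀ d₁ d₂ J hx, rfl⟩
    have h2 : ∑ n ∈ s, c n * e (x0 + x) ^ n = ∑ n ∈ s, c' n * e (n * x) := by
      refine sum_congr rfl fun n _ => ?_
      simp only [hc']
      rw [e_pow, mul_assoc, ← e_add]
      congr 2
      ring
    rwa [h2] at h1
  -- far windows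
  have hex : ∀ n : ℕ, ∃ j : ℕ, (n : ℝ) ≤ (θ ^ 2) ^ (j + 1 + I) := by
    intro n
    obtain ⟨j, hj⟩ := pow_unbounded_of_one_lt (n : ℝ) hT
    exact ⟨j, hj.le.trans (pow_le_pow_right₀ hT.le (by omega))⟩
  set j1 : ℕ → ℕ := fun n => Nat.find (hex n) with hj1
  have hj1a : ∀ n j, j1 n ≤ j → (n : ℝ) ≤ (θ ^ 2) ^ (j + 1 + I) := fun n j hj =>
    (Nat.find_spec (hex n)).trans (pow_le_pow_right₀ hT.le (by
      have : Nat.find (hex n) ≤ j := hj
      omega))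
  have hj1b : ∀ n j, j < j1 n → (θ ^ 2) ^ (j + 1 + I) < (n : ℝ) := fun n j hj =>
    not_le.1 (Nat.find_min (hex n) hj)
  have hfar : ∀ n ∈ s, ∑ j ∈ range (j1 n), WW θ p r' J n j ≤ ε := by
    intro n hn
    rcases Nat.eq_zero_or_pos (j1 n) with h0 | h0
    · rw [h0, range_zero, sum_empty]
      exact hε0.le
    · have h1 := hj1b n (j1 n - 1) (by omega)
      have e1 : j1 n - 1 + 1 + I = j1 n + I := by omega
      rw [e1] at h1
      have h2 := hj1a n (j1 n) le_rfl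
      have h3 : (n : ℝ) < (θ ^ 2) ^ J := by
        have := hJn n hn
        have h4 : t0 * (θ ^ 2) ^ J ≤ 1 * (θ ^ 2) ^ J := by gcongr
        linarith
      have h4 : j1 n + I < J := (pow_lt_pow_iff_right₀ hT).1 (h1.trans h3)
      have h5 := sum_WW (θ := θ) (p := p) (r := r') (J := J) (n := n) (j1 n) (by omega)
      have h6 : ‖FF θ p r' J n (j1 n)‖ ≤ ∏ i ∈ Ico (j1 n) (j1 n + I), ‖gam θ p r' n i‖ := by
        unfold FF
        rw [norm_prod, ← Finset.prod_Ico_consecutive _ (by omega : j1 n ≤ j1 n + I) h4.le]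
        refine mul_le_of_le_one_right (prod_nonneg fun _ _ => norm_nonneg _) ?_
        exact prod_le_one (fun _ _ => norm_nonneg _) fun _ _ => norm_gam_le _ _ _ _ _
      rw [prod_gam (by linarith : 0 < θ)] at h6
      have hTp : 0 < (θ ^ 2) ^ (j1 n + I) := by positivity
      have h7 := hI (n / (θ ^ 2) ^ (j1 n + I)) (by
        rw [le_div_iff₀ hTp]
        linarith) (by
        rw [div_le_iff₀ hTp, ← pow_succ']
        have : j1 n + 1 + I = j1 n + I + 1 := by omega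
        rwa [this] at h2)
      have h8 := prod_g1_anti (by omega : I ≤ 2 * I) p r'
        (fun l => n / (θ ^ 2) ^ (j1 n + I) * θ ^ l)
      have h9 := norm_nonneg (FF θ p r' J n 0)
      linarith
  -- near windows
  have hbig : ∀ n0 ∈ s, k ≤ 2 * jn n0 := by
    intro n0 hn0
    have h1 := (hjn n0 (hs1 n0 hn0)).2
    have h2 : (N₁ : ℝ) ≤ n0 := by exact_mod_cast (hs.1 n0 hn0).2
    have h3 : t0 * (θ ^ 2) ^ (jn n0 + 1) ≤ 1 * (θ ^ 2) ^ (jn n0 + 1) := by gcongr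
    have h4 : (θ ^ 2) ^ (k + 1) < (θ ^ 2) ^ (jn n0 + 1) := by linarith
    have h5 := (pow_lt_pow_iff_right₀ hT).1 h4
    omega
  have hup : ∀ n0 ∈ s, ∀ n ∈ s, j1 n ≤ jn n0 →
      (n : ℝ) + n0 ≤ 2 * (θ ^ 2) ^ (1 + I) * (θ ^ 2) ^ (jn n0) := by
    intro n0 hn0 n hn hj
    have h1 := hj1a n _ hj
    have h2 := (hjn n0 (hs1 n0 hn0)).2
    have h3 : t0 * (θ ^ 2) ^ (jn n0 + 1) ≤ 1 * (θ ^ 2) ^ (jn n0 + 1 + I) :=
      mul_le_mul ht1 (pow_le_pow_right₀ hT.le (by omega)) (by positivity) zero_le_one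
    have h4 : 2 * (θ ^ 2) ^ (1 + I) * (θ ^ 2) ^ (jn n0) = 2 * (θ ^ 2) ^ (jn n0 + 1 + I) := by ring
    rw [h4]
    linarith
  have hn0low : ∀ n0 ∈ s, (1 - 1 / q) * t0 * (θ ^ 2) ^ (jn n0) ≤ (1 - 1 / q) * n0 := by
    intro n0 hn0
    rw [mul_assoc]
    exact mul_le_mul_of_nonneg_left (hjn n0 (hs1 n0 hn0)).1 (by linarith)
  have hnear1 : ∀ n0 ∈ s, ∀ n ∈ s, j1 n ≤ jn n0 → n ≠ n0 → ∀ α : ℕ → ℝ → ℝ,
      (∀ j x, |α j x| ≤ 1) →
      ‖EE θ p r' ρ α (jn n0) (fun x => e (((n : ℝ) - n0) * x))‖ ≤ ε + ρ := by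
    intro n0 hn0 n hn hj hne α hα
    refine char_le hθ hρ0.le hρ1 hα hk _ (hbig n0 hn0) ?_ ?_
    · refine (hn0low n0 hn0).trans ?_
      exact RZ.sep hq (fun h => hs.2 n hn n0 hn0 h) (fun h => hs.2 n0 hn0 n hn h) hne.symm
    · refine le_trans ?_ (hup n0 hn0 n hn hj)
      have h1 : (0 : ℝ) ≤ n := Nat.cast_nonneg n
      have h2 : (0 : ℝ) ≤ n0 := Nat.cast_nonneg n0
      rw [abs_le]
      constructor <;> linarith
  have hnear2 : ∀ n0 ∈ s, ∀ n ∈ s, j1 n ≤ jn n0 → ∀ α : ℕ → ℝ → ℝ,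
      (∀ j x, |α j x| ≤ 1) →
      ‖EE θ p r' ρ α (jn n0) (fun x => e (((n : ℝ) + n0) * x))‖ ≤ ε + ρ := by
    intro n0 hn0 n hn hj α hα
    have h1 : (0 : ℝ) ≤ n := Nat.cast_nonneg n
    have h2 : (0 : ℝ) ≤ n0 := Nat.cast_nonneg n0
    refine char_le hθ hρ0.le hρ1 hα hk _ (hbig n0 hn0) ?_ ?_
    · refine (hn0low n0 hn0).trans ?_
      rw [abs_of_nonneg (by positivity)]
      nlinarith
    · rw [abs_of_nonneg (by positivity)]
      exact hup n0 hn0 n hn hj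
  -- one class
  have hclass : ∀ r ∈ range (L + 1), b0 / 2 * ∑ n ∈ s with RZ.cls q (L + 1) n = r, ‖c n‖ ≤
      2 * M / ρ + 3 * ε * S := by
    intro r _
    set A := s.filter (fun n => RZ.cls q (L + 1) n = r) with hA
    have hAs : A ⊆ s := filter_subset _ _
    have hinj : ∀ m ∈ A, ∀ n ∈ A, jn m = jn n → m = n := by
      have key : ∀ m ∈ A, ∀ n ∈ A, jn m = jn n → ¬ m < n := by
        intro m hm n hn h hlt
        have h1 := RZ.cls_gap hq hL.le (hs1 m (hAs hm)) (hs.2 m (hAs hm) n (hAs hn) hlt)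
          ((mem_filter.1 hm).2.trans (mem_filter.1 hn).2.symm)
        have h2 := (hjn m (hs1 m (hAs hm))).1
        have h3 := (hjn n (hs1 n (hAs hn))).2
        rw [← h, pow_succ] at h3
        have h4 : θ ^ 2 * (t0 * (θ ^ 2) ^ jn m) ≤ θ ^ 2 * m := by gcongr
        nlinarith
      intro m hm n hn h
      exact le_antisymm (not_lt.1 (key n hn m hm h.symm)) (not_lt.1 (key m hm n hn h))
    have h1 := key_ineq (θ := θ) (p := p) (r := r') (s := s) (c := c') (J := J) hρ0.le hρ1 hM' hAs jn hinj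
      (fun n hn => hjJ n (hAs hn)) (b0 := b0) (d := ε + ρ) (d2 := ε) (by positivity)
      (fun n hn => hown n _ J (hjJ n (hAs hn)) (hjn n (hs1 n (hAs hn))).1
        (hjn n (hs1 n (hAs hn))).2) j1 hfar
      (fun n0 hn0 n hn => hnear1 n0 (hAs hn0) n hn) (fun n0 hn0 n hn => hnear2 n0 (hAs hn0) n hn)
    simp only [hcn] at h1
    rw [← hS] at h1
    have h2 : b0 / 2 * ∑ n ∈ A, ‖c n‖ - (ε + ρ + ε) * S ≤ 2 * M / ρ := by
      rw [le_div_iff₀ hρ0, mul_comm]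
      exact h1
    have h3 : (ε + ρ + ε) * S ≤ 3 * ε * S := by
      apply mul_le_mul_of_nonneg_right _ hS0
      linarith
    linarith
  have hsum : S = ∑ r ∈ range (L + 1), ∑ n ∈ s with RZ.cls q (L + 1) n = r, ‖c n‖ := by
    rw [hS, Finset.sum_fiberwise_of_maps_to]
    intro n _
    rw [Finset.mem_range]
    exact Nat.mod_lt _ (Nat.succ_pos L)
  have hfin : b0 / 2 * S ≤ (L + 1) * (2 * M / ρ + 3 * ε * S) := by
    conv_lhs => rw [hsum]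
    rw [Finset.mul_sum]
    refine (Finset.sum_le_sum hclass).trans ?_
    rw [Finset.sum_const, Finset.card_range, nsmul_eq_mul]
    push_cast
    exact le_rfl
  have h5 : ((L : ℝ) + 1) * (2 * M / ρ + 3 * ε * S) = 2 * (L + 1) * M / ρ + 3 / 16 * b0 * S := by
    rw [hε]
    field_simp
  rw [h5] at hfin
  have h6 : b0 / 4 * S ≤ 2 * (L + 1) * M / ρ := by
    have : 0 ≤ b0 * S := by positivity
    linarith
  have h7 : S = (b0 / 4 * S) * (4 / b0) := by field_simp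
  rw [h7]
  calc b0 / 4 * S * (4 / b0) ≤ 2 * (L + 1) * M / ρ * (4 / b0) := by gcongr
    _ = 8 * (L + 1) / (ρ * b0) * M := by
        field_simp
        ring

end Forcing.DW
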