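import Pool.Agent.Lib.MP_c80ac4_an.DZ.H6

/-!
# Row H7 (helper3): in Pisot's theorem the multiplier lies in the field of the Pisot number

PROOF IN WORDS. If `l = 0` take `p = 0`. Otherwise put `a j = round (l * θ ^ j)` and
`ε j = l * θ ^ j - a j → 0`. `θ` is an algebraic integer (`DZ.det_zero`, `DZ.kronecker`,
`DZ.integral_of_rec` as in `DZ/H6.lean`). Exactly as in `DZ/H5.lean` (copy from there): let
`P = minpoly ℤ θ`, `b n = ∑ i, P_i a (n+i)` is an integer and tends to `0`, so `b n = 0` for `n ≥ n1`.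
Over the subfield `ℚ(θ)` of `ℝ` (or in `AdjoinRoot (minpoly ℚ θ)`, or simply over `ℝ`, remembering that
all the coefficients are values `aeval θ q`, `q ∈ ℚ[X]`): `P = (X - θ) R`, `R = ∑ r_i X^i`, where every
`r_i` is `aeval θ (q_i)` with `q_i ∈ ℚ[X]` (Horner: `r_(d-1) = 1`, `r_(i-1) = P_i + θ r_i`).
`B n = ∑ i, r_i a (n+i)` satisfies `B (n+1) = θ B n` for `n ≥ n1`, and
`B n = R(θ) l θ^n - ∑ r_i ε (n+i)`. Divide by `θ^n` and let `n → ∞`: `B n1 / θ^n1 = R(θ) l`, with
`R(θ) = P'(θ) ≠ 0` (separable, as in H5). So `l = B n1 / (θ^n1 R(θ))` is in the field `ℚ(θ)`, i.e. equal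
to `aeval θ p` for some `p ∈ ℚ[X]` (`IntermediateField` / `Algebra.adjoin ℚ {θ}` is a field because `θ` is
algebraic: `IntermediateField.adjoin_simple_toSubalgebra_of_integral` and `Algebra.adjoin_singleton_eq_range_aeval`).
-/

open Polynomial Filter Topology

namespace Forcing.DZ

/-- The linear functional `F ↦ ∑ i, F_i a (n+i)`. -/
private noncomputable def H7L (d : ℕ) (a : ℕ → ℤ) (n : ℕ) (F : ℝ[X]) : ℝ :=
  ∑ i ∈ Finset.range (d + 1), F.coeff i * (a (n + i) : ℝ)

private theorem H7_rec (d : ℕ) (a : ℕ → ℤ) (n : ℕ) (R : ℝ[X]) (w : ℝ) (hR : R.coeff d = 0) :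
    H7L d a n (R * (X - C w)) = H7L d a (n + 1) R - w * H7L d a n R := by
  have e1 : ∀ i, (R * (X - C w)).coeff (i + 1) * (a (n + (i + 1)) : ℝ) =
      R.coeff i * (a (n + 1 + i) : ℝ) - w * (R.coeff (i + 1) * (a (n + (i + 1)) : ℝ)) := by
    intro i
    rw [coeff_mul_X_sub_C, show n + 1 + i = n + (i + 1) by ring]
    ring
  have e2 : (R * (X - C w)).coeff 0 = -(R.coeff 0 * w) := by
    simp [mul_coeff_zero]
  have e3 : H7L d a (n + 1) R = ∑ i ∈ Finset.range d, R.coeff i * (a (n + 1 + i) : ℝ) := by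
    unfold H7L
    rw [Finset.sum_range_succ, hR, zero_mul, add_zero]
  have e4 : H7L d a n R = ∑ i ∈ Finset.range d, R.coeff (i + 1) * (a (n + (i + 1)) : ℝ) +
      R.coeff 0 * (a (n + 0) : ℝ) := by
    unfold H7L
    rw [Finset.sum_range_succ']
  rw [e3, e4]
  unfold H7L
  rw [Finset.sum_range_succ', Finset.sum_congr rfl (fun i _ => e1 i), e2,
    Finset.sum_sub_distrib, ← Finset.mul_sum]
  ring

private theorem H7_val (d : ℕ) (a : ℕ → ℤ) (θ l : ℝ) (n : ℕ) (F : ℝ[X])
    (hF : F.natDegree < d + 1) :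
    H7L d a n F = l * θ ^ n * F.eval θ -
      ∑ i ∈ Finset.range (d + 1), F.coeff i * (l * θ ^ (n + i) - a (n + i)) := by
  unfold H7L
  rw [eval_eq_sum_range' hF, Finset.mul_sum, ← Finset.sum_sub_distrib]
  refine Finset.sum_congr rfl fun i _ => ?_
  rw [pow_add]
  ring

private theorem H7_err (d : ℕ) (a : ℕ → ℤ) (θ l : ℝ)
    (hs : Summable fun j : ℕ => (l * θ ^ j - a j) ^ 2) (F : ℝ[X]) :
    Tendsto (fun n => ∑ i ∈ Finset.range (d + 1),
      F.coeff i * (l * θ ^ (n + i) - a (n + i))) atTop (𝓝 0) := by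
  have h1 : Tendsto (fun j : ℕ => l * θ ^ j - a j) atTop (𝓝 0) := by
    have h2 := hs.tendsto_atTop_zero
    have h3 := (Real.continuous_sqrt.tendsto 0).comp h2
    rw [Real.sqrt_zero] at h3
    rw [tendsto_zero_iff_abs_tendsto_zero]
    refine h3.congr fun j => ?_
    simp only [Function.comp]
    rw [Real.sqrt_sq_eq_abs]
  have h3 : ∀ i ∈ Finset.range (d + 1), Tendsto
      (fun n => F.coeff i * (l * θ ^ (n + i) - a (n + i))) atTop
        (𝓝 (F.coeff i * 0)) := by
    intro i _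
    exact (h1.comp (tendsto_add_atTop_nat i)).const_mul _
  have h4 := tendsto_finsetSum _ h3
  simpa only [mul_zero, Finset.sum_const_zero] using h4

theorem mem_field {θ l : ℝ} (hθ : 1 < θ)
    (hs : Summable fun j : ℕ => (l * θ ^ j - round (l * θ ^ j)) ^ 2) :
    ∃ p : ℚ[X], aeval θ p = l := by
  classical
  rcases eq_or_ne l 0 with hl | hl
  · exact ⟨0, by rw [map_zero, hl]⟩
  set a : ℕ → ℤ := fun j => round (l * θ ^ j) with ha
  have hint : IsIntegral ℤ θ := by
    obtain ⟨N, hN⟩ := det_zero hθ a hs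
    obtain ⟨U, hU, hrec⟩ := kronecker (F := ℚ) (fun j => (a j : ℚ)) N (fun n hn => by
      have h1 := hN n hn
      have h2 := congrArg (Int.cast : ℤ → ℚ) h1
      rw [Int.cast_zero, Int.cast_det] at h2
      rw [← h2]
      congr 1)
    exact integral_of_rec hθ hl a hs U hU hrec
  set p : ℤ[X] := minpoly ℤ θ with hp
  have hpm : p.Monic := minpoly.monic hint
  have hp0 : aeval θ p = 0 := minpoly.aeval ℤ θ
  set P : ℚ[X] := minpoly ℚ θ with hP
  have hPp : P = p.map (algebraMap ℤ ℚ) := minpoly.isIntegrallyClosed_eq_field_fractions' ℚ hint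
  have hintQ : IsIntegral ℚ θ := hint.tower_top
  have hirr : Irreducible P := minpoly.irreducible hintQ
  set d : ℕ := p.natDegree with hd
  set Pc : ℝ[X] := p.map (algebraMap ℤ ℝ) with hPc
  have hPcP : Pc = P.map (algebraMap ℚ ℝ) := by
    rw [hPp, Polynomial.map_map, ← IsScalarTower.algebraMap_eq ℤ ℚ ℝ]
  have hdc : Pc.natDegree = d := hpm.natDegree_map _
  have hθc : Pc.eval θ = 0 := by
    rw [hPc, eval_map_algebraMap]
    exact hp0
  have hθP : aeval θ P = 0 := minpoly.aeval ℚ θ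
  obtain ⟨R, hRdef⟩ : ∃ R : ℝ[X], R = Pc /ₘ (X - C θ) := ⟨_, rfl⟩
  have hR : R * (X - C θ) = Pc := by
    rw [hRdef, mul_comm]
    exact mul_divByMonic_eq_iff_isRoot.2 hθc
  have hRd : R.coeff d = 0 := by
    rw [hRdef, coeff_divByMonic_X_sub_C, hdc, Finset.Icc_eq_empty (by omega), Finset.sum_empty]
  have hRn : R.natDegree < d + 1 := by
    rw [hRdef, natDegree_divByMonic _ (monic_X_sub_C θ), hdc]
    omega
  have hb : ∀ᶠ n in atTop, H7L d a n Pc = 0 := by
    have h1 := H7_err d a θ l hs Pc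
    have h2 := h1.abs
    rw [abs_zero] at h2
    filter_upwards [h2.eventually (gt_mem_nhds one_pos)] with n hn
    have h3 := H7_val d a θ l n Pc (by rw [hdc]; omega)
    rw [hθc, mul_zero, zero_sub] at h3
    have h4 : |H7L d a n Pc| < 1 := by
      rw [h3, abs_neg]
      exact hn
    have h5 : H7L d a n Pc = ((∑ i ∈ Finset.range (d + 1), p.coeff i * a (n + i) : ℤ) : ℝ) := by
      unfold H7L
      push_cast
      refine Finset.sum_congr rfl fun i _ => ?_
      rw [hPc, coeff_map, algebraMap_int_eq, eq_intCast]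
    rw [h5] at h4
    have h6 : |∑ i ∈ Finset.range (d + 1), p.coeff i * a (n + i)| < 1 := by
      exact_mod_cast h4
    rw [h5, Int.abs_lt_one_iff.1 h6, Int.cast_zero]
  obtain ⟨n1, hn1⟩ := eventually_atTop.1 hb
  have hgeo : ∀ k, H7L d a (n1 + k) R = θ ^ k * H7L d a n1 R := by
    intro k
    induction k with
    | zero => simp
    | succ k ih =>
      have h1 := H7_rec d a (n1 + k) R θ hRd
      rw [hR, hn1 (n1 + k) (by omega)] at h1
      rw [← add_assoc, sub_eq_zero.1 h1.symm, ih, pow_succ]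
      ring
  have hθ0 : (0 : ℝ) < θ := by linarith
  have hval : H7L d a n1 R = l * θ ^ n1 * R.eval θ := by
    have h1 := (H7_err d a θ l hs R).comp (tendsto_add_atTop_nat n1)
    have h2 : Tendsto (fun k : ℕ => (θ⁻¹) ^ k) atTop (𝓝 0) :=
      tendsto_pow_atTop_nhds_zero_of_lt_one (by positivity) (inv_lt_one_of_one_lt₀ hθ)
    have h3 := h2.mul h1
    rw [zero_mul] at h3
    have h4 : Tendsto (fun _ : ℕ => l * θ ^ n1 * R.eval θ - H7L d a n1 R) atTop (𝓝 0) := by
      refine h3.congr fun k => ?_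
      simp only [Function.comp]
      have h5 := H7_val d a θ l (n1 + k) R hRn
      rw [hgeo k, pow_add] at h5
      rw [add_comm k n1]
      have h6 : ∑ i ∈ Finset.range (d + 1), R.coeff i * (l * θ ^ (n1 + k + i) - a (n1 + k + i)) =
          θ ^ k * (l * θ ^ n1 * R.eval θ - H7L d a n1 R) := by
        linear_combination h5
      rw [h6, ← mul_assoc, ← mul_pow, inv_mul_cancel₀ hθ0.ne', one_pow, one_mul]
    have h5 := tendsto_nhds_unique h4 tendsto_const_nhds
    linarith
  -- nonvanishing at `θ`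
  have hRθ' : R.eval θ = aeval θ (derivative P) := by
    have h1 : derivative Pc = derivative R * (X - C θ) + R := by
      conv_lhs => rw [← hR]
      rw [derivative_mul, derivative_sub, derivative_X, derivative_C]
      ring
    have h2 : (derivative Pc).eval θ = R.eval θ := by
      rw [h1, eval_add, eval_mul]
      simp
    rw [← h2, hPcP, derivative_map, eval_map_algebraMap]
  have hRθ : R.eval θ ≠ 0 := by
    rw [hRθ']
    exact hirr.separable.aeval_derivative_ne_zero hθP
  let Q : ℚ[X] := ∑ i ∈ Finset.range (d + 1), C ((a (n1 + i) : ℤ) : ℚ) *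
    ∑ j ∈ Finset.Icc (i + 1) d, X ^ (j - (i + 1)) * C (P.coeff j)
  have hQ : aeval θ Q = H7L d a n1 R := by
    show aeval θ (∑ i ∈ Finset.range (d + 1), C ((a (n1 + i) : ℤ) : ℚ) *
      ∑ j ∈ Finset.Icc (i + 1) d, X ^ (j - (i + 1)) * C (P.coeff j)) = _
    unfold H7L
    rw [map_sum]
    refine Finset.sum_congr rfl fun i _ => ?_
    rw [hRdef, coeff_divByMonic_X_sub_C, hdc, map_mul, map_sum, aeval_C, mul_comm]
    congr 1
    · refine Finset.sum_congr rfl fun j _ => ?_
      rw [map_mul, map_pow, aeval_X, aeval_C, hPcP, coeff_map]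
  have hmem : ∀ q : ℚ[X], aeval θ q ∈ IntermediateField.adjoin ℚ {θ} := by
    intro q
    have h1 : aeval θ q ∈ Algebra.adjoin ℚ {θ} := by
      rw [Algebra.adjoin_singleton_eq_range_aeval]
      exact ⟨q, rfl⟩
    exact IntermediateField.algebra_adjoin_le_adjoin ℚ {θ} h1
  have hθm : θ ∈ IntermediateField.adjoin ℚ {θ} := by
    have := hmem X
    rwa [aeval_X] at this
  have hlm : l ∈ IntermediateField.adjoin ℚ {θ} := by
    have h1 : l = aeval θ Q / (θ ^ n1 * aeval θ (derivative P)) := by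
      rw [hQ, hval, ← hRθ', eq_div_iff (mul_ne_zero (pow_ne_zero _ hθ0.ne') hRθ)]
      ring
    rw [h1]
    exact div_mem (hmem _) (mul_mem (pow_mem hθm _) (hmem _))
  rw [← IntermediateField.mem_toSubalgebra,
    IntermediateField.adjoin_simple_toSubalgebra_of_isAlgebraic hintQ.isAlgebraic,
    Algebra.adjoin_singleton_eq_range_aeval] at hlm
  exact hlm

end Forcing.DZ
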