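import Pool.Agent.Lib.MP_c80ac4_an.DZ.Dich
import Pool.Agent.Lib.MP_c80ac4_an.DW.Fin
import Pool.Agent.Lib.MP_c80ac4_an.DW.H7

/-! # The dichotomy for all finite digit sets -/

namespace Forcing.DW

open Forcing.Ratio Forcing.HM Polynomial Metric IntermediateField

theorem digitSet_mono {θ : ℝ} {A B : Set ℝ} (h : A ⊆ B) : digitSet θ A ⊆ digitSet θ B := by
  rintro x ⟨d, hd, hx⟩
  exact ⟨d, fun j => h (hd j), hx⟩

theorem mem_adjoin_of_aeval {θ x : ℝ} (h : ∃ p : ℚ[X], aeval θ p = x) : x ∈ ℚ⟮θ⟯ := by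
  have h1 : x ∈ Algebra.adjoin ℚ {θ} := by
    rw [Algebra.adjoin_singleton_eq_range_aeval]
    exact h
  exact algebra_adjoin_le_adjoin ℚ {θ} h1

theorem aeval_of_mem {θ x : ℝ} (h : IsPisot θ) (hx : x ∈ ℚ⟮θ⟯) : ∃ p : ℚ[X], aeval θ p = x := by
  obtain ⟨-, p, hp, h0, -⟩ := h
  have hi : IsIntegral ℤ θ := ⟨p, hp, h0⟩
  have hint : IsIntegral ℚ θ := hi.tower_top
  have h1 := IntermediateField.adjoin_simple_toSubalgebra_of_isAlgebraic hint.isAlgebraic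
  have h2 : x ∈ (ℚ⟮θ⟯).toSubalgebra := hx
  rw [h1, Algebra.adjoin_singleton_eq_range_aeval] at h2
  exact h2

/-- **Digit sets that are not commensurable with the field of a Pisot number.** -/
theorem sidonOn_of_digits {θ : ℝ} (hθ : 1 < θ) {A : Set ℝ} (hA : A.Nontrivial)
    (h : ¬ (IsPisot θ ∧ ∃ r : ℝ, ∀ b ∈ A, ∀ c ∈ A, ∃ x ∈ ℚ⟮θ⟯, b - c = r * x)) :
    SidonOn (e '' digitSet θ A) := by
  obtain ⟨b, hb, c, hc, hbc⟩ := hA
  by_cases hp : IsPisot θ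
  · have h1 : ∃ d ∈ A, ∀ x ∈ ℚ⟮θ⟯, d - b ≠ (c - b) * x := by
      by_contra hcon
      push Not at hcon
      refine h ⟨hp, c - b, fun x hx y hy => ?_⟩
      obtain ⟨q1, hq1, h1⟩ := hcon x hx
      obtain ⟨q2, hq2, h2⟩ := hcon y hy
      exact ⟨q1 - q2, sub_mem hq1 hq2, by linear_combination h1 - h2⟩
    obtain ⟨d, hd, h2⟩ := h1
    refine (sidonOn_digit3 (d₀ := b) (d₁ := c) (d₂ := d) hθ hbc ?_).mono
      (Set.image_mono (digitSet_mono ?_))
    · rintro t ht ⟨h3, h4⟩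
      have h5 := mem_adjoin_of_aeval (DZ.mem_field hθ h3)
      have h6 := mem_adjoin_of_aeval (DZ.mem_field hθ h4)
      have h8 : c - b ≠ 0 := sub_ne_zero.2 hbc.symm
      refine h2 (t * (d - b) / (t * (c - b))) (div_mem h6 h5) ?_
      field_simp
    · rintro x (rfl | rfl | rfl) <;> assumption
  · refine (DZ.sidonOn_of_not_pisot hθ hp hbc).mono (Set.image_mono (digitSet_mono ?_))
    rintro x (rfl | rfl) <;> assumption

/-- Digit sets are closed. -/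
theorem isClosed_digit {θ : ℝ} (hθ : 1 < θ) (A : Finset ℝ) :
    IsClosed (e '' digitSet θ (A : Set ℝ)) := by
  have h0 : 0 < θ⁻¹ := inv_pos.2 (by linarith)
  have h1 : θ⁻¹ < 1 := inv_lt_one_of_one_lt₀ hθ
  obtain ⟨M, hM⟩ : ∃ M : ℝ, ∀ a ∈ A, |a| ≤ M :=
    ⟨∑ a ∈ A, |a|, fun a ha => Finset.single_le_sum (f := fun a => |a|)
      (fun i _ => abs_nonneg i) ha⟩
  have hb : ∀ (j : ℕ) (ω : ℕ → A), ‖(ω j : ℝ) * θ⁻¹ ^ (j + 1)‖ ≤ M * θ⁻¹ ^ (j + 1) := by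
    intro j ω
    rw [norm_mul, Real.norm_eq_abs, norm_pow, Real.norm_eq_abs, abs_of_pos h0]
    exact mul_le_mul_of_nonneg_right (hM _ (ω j).2) (by positivity)
  have hs : Summable fun j : ℕ => M * θ⁻¹ ^ (j + 1) := by
    have h2 : Summable fun j : ℕ => θ⁻¹ ^ j := summable_geometric_of_lt_one h0.le h1
    exact ((summable_nat_add_iff 1).2 h2).mul_left M
  have hc : Continuous fun ω : ℕ → A => e (∑' j, (ω j : ℝ) * θ⁻¹ ^ (j + 1)) :=
    EK.e_cont.comp (continuous_tsum (fun j => by fun_prop) hs hb)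
  have heq : e '' digitSet θ (A : Set ℝ) =
      Set.range fun ω : ℕ → A => e (∑' j, (ω j : ℝ) * θ⁻¹ ^ (j + 1)) := by
    ext z
    constructor
    · rintro ⟨x, ⟨d, hd, hx⟩, rfl⟩
      refine ⟨fun j => ⟨d j, Finset.mem_coe.1 (hd j)⟩, ?_⟩
      show e (∑' j, d j * θ⁻¹ ^ (j + 1)) = e x
      rw [hx.tsum_eq]
    · rintro ⟨ω, rfl⟩
      refine ⟨∑' j, (ω j : ℝ) * θ⁻¹ ^ (j + 1), ⟨fun j => (ω j : ℝ), fun j => (ω j).2, ?_⟩, rfl⟩
      exact (Summable.of_norm_bounded hs fun j => hb j ω).hasSum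
  rw [heq]
  exact (isCompact_range hc).isClosed

/-- The boundary part of the union of the radii. -/
theorem closure_radii_eq {E : Set ℂ} (hE : E ⊆ sphere 0 1) (hcl : IsClosed E) :
    closure (radii E) ∩ sphere 0 1 = E := by
  refine Set.Subset.antisymm (closure_radii_subset hE hcl) ?_
  intro ζ hζ
  refine ⟨?_, hE hζ⟩
  have hlim : Filter.Tendsto (fun t : ℝ => (t : ℂ) * ζ) (nhdsWithin 1 (Set.Iio 1)) (nhds ζ) := by
    have hc : Continuous fun t : ℝ => (t : ℂ) * ζ := by fun_prop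
    have := (hc.tendsto 1).mono_left (nhdsWithin_le_nhds (s := Set.Iio 1))
    simpa using this
  apply mem_closure_of_tendsto hlim
  filter_upwards [Ioo_mem_nhdsLT (zero_lt_one (α := ℝ))] with t ht
  exact ⟨t, ⟨ht.1.le, ht.2⟩, ζ, hζ, rfl⟩

/-- **The dichotomy for digit sets.** -/
theorem digit_iff {θ : ℝ} (hθ : 1 < θ) (A : Finset ℝ) (hcard : (A.card : ℝ) < θ)
    (h0 : (0 : ℝ) ∈ A) (ha : ∃ a ∈ A, a ≠ 0 ∧ a ∈ ℚ⟮θ⟯) :
    (∃ S : Set ℂ, S ⊆ ball 0 1 ∧ IsForcing S ∧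
      closure S ∩ sphere 0 1 = e '' digitSet θ (A : Set ℝ)) ↔
        ¬ (IsPisot θ ∧ ∀ a ∈ A, a ∈ ℚ⟮θ⟯) := by
  have hsub : e '' digitSet θ (A : Set ℝ) ⊆ sphere 0 1 := by
    rintro z ⟨x, -, rfl⟩
    simpa using norm_e x
  constructor
  · rintro ⟨S, hS, hF, hE⟩ ⟨hp, hA⟩
    have h1 := sidonOn_of_forcing hS hF
    rw [hE] at h1
    exact DZ.not_sidonOn_of_pisot hp A (fun d hd => aeval_of_mem hp (hA d hd)) hcard
      (E := e '' digitSet θ (A : Set ℝ)) subset_rfl h1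
  · intro h
    obtain ⟨a, haA, ha0, haF⟩ := ha
    have h1 : SidonOn (e '' digitSet θ (A : Set ℝ)) := by
      refine sidonOn_of_digits hθ ⟨0, h0, a, haA, ha0.symm⟩ ?_
      rintro ⟨hp, r, hr⟩
      refine h ⟨hp, fun d hd => ?_⟩
      obtain ⟨x, hx, h2⟩ := hr a haA 0 h0
      obtain ⟨y, hy, h3⟩ := hr d hd 0 h0
      rw [sub_zero] at h2 h3
      have hx0 : x ≠ 0 := by
        rintro rfl
        exact ha0 (by rw [h2, mul_zero])
      have h4 : r = a / x := by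
        rw [h2]
        field_simp
      rw [h3, h4]
      exact mul_mem (div_mem haF hx) hy
    exact ⟨radii (e '' digitSet θ (A : Set ℝ)), radii_subset hsub, forcing_radii hsub h1,
      closure_radii_eq hsub (isClosed_digit hθ A)⟩

end Forcing.DW
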