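import Pool.Agent.Lib.MP_c80ac4_an.Local.Ratio

/-! # Three digits -/

namespace Forcing.DW

open Forcing.Ratio

/-- the mean of a character over the digits `0, b, c` -/
noncomputable def g1 (b c t : ℝ) : ℂ := (1 + e (t * b) + e (t * c)) / 3

/-- its mean against the digit function `(-1, 1, 0)` -/
noncomputable def b1 (b t : ℝ) : ℂ := (e (t * b) - 1) / 3

end Forcing.DW
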