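import Pool.Agent.Lib.MP_c80ac4_an.DW.Defs

/-! # Windows of two digits out of three and biased digit measures -/

namespace Forcing.DW

open Forcing.Ratio Finset

/-- the digits -/
def dg (b c : ℝ) : Fin 3 → ℝ := ![0, b, c]

/-- the digit function -/
def uu : Fin 3 → ℝ := ![-1, 1, 0]

theorem abs_uu (i : Fin 3) : |uu i| ≤ 1 := by
  fin_cases i <;> simp [uu]

/-- the shift by the two digits of a window -/
noncomputable def sh (θ b c : ℝ) (j : ℕ) (w : Fin 3 × Fin 3) : ℝ :=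
  (dg b c w.1 * θ + dg b c w.2) / (θ ^ 2) ^ (j + 1)

/-- expectation with respect to the biased digit measure -/
noncomputable def EE {V : Type*} [NormedAddCommGroup V] [NormedSpace ℝ V] (θ b c ρ : ℝ)
    (α : ℕ → ℝ → ℝ) : ℕ → (ℝ → V) → V
  | 0, φ => φ 0
  | (j + 1), φ => EE θ b c ρ α j (fun x => (1 / 9 : ℝ) • ∑ w : Fin 3 × Fin 3,
      (1 + ρ * α j x * (uu w.1 * uu w.2)) • φ (x + sh θ b c j w))

/-- the points reached by the digits -/
def Reach (θ b c : ℝ) : ℕ → Set ℝ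
  | 0 => {0}
  | (j + 1) => {y | ∃ x ∈ Reach θ b c j, ∃ w, y = x + sh θ b c j w}

section
variable {V W : Type*} [NormedAddCommGroup V] [NormedSpace ℝ V] [NormedAddCommGroup W]
  [NormedSpace ℝ W] {θ b c ρ : ℝ} {α : ℕ → ℝ → ℝ}

theorem EE_congr (j : ℕ) : ∀ {φ ψ : ℝ → V}, (∀ x ∈ Reach θ b c j, φ x = ψ x) →
    EE θ b c ρ α j φ = EE θ b c ρ α j ψ := by
  induction j with
  | zero => exact fun h => h 0 rfl
  | succ j ih =>
    intro φ ψ h
    refine ih fun x hx => ?_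
    congr 1
    refine Finset.sum_congr rfl fun w _ => ?_
    rw [h _ ⟨x, hx, w, rfl⟩]

theorem EE_map (L : V →ₗ[ℝ] W) (j : ℕ) : ∀ (φ : ℝ → V),
    EE θ b c ρ α j (fun x => L (φ x)) = L (EE θ b c ρ α j φ) := by
  induction j with
  | zero => exact fun φ => rfl
  | succ j ih =>
    intro φ
    show EE θ b c ρ α j _ = L (EE θ b c ρ α j _)
    rw [← ih]
    congr 1
    ext x
    rw [map_smul, map_sum]
    simp only [map_smul]

theorem EE_add (j : ℕ) : ∀ (φ ψ : ℝ → V),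
    EE θ b c ρ α j (fun x => φ x + ψ x) = EE θ b c ρ α j φ + EE θ b c ρ α j ψ := by
  induction j with
  | zero => exact fun φ ψ => rfl
  | succ j ih =>
    intro φ ψ
    show EE θ b c ρ α j _ = EE θ b c ρ α j _ + EE θ b c ρ α j _
    rw [← ih]
    congr 1
    ext x
    rw [← smul_add, ← Finset.sum_add_distrib]
    simp only [smul_add]

theorem EE_zero (j : ℕ) : EE θ b c ρ α j (fun _ => (0 : V)) = 0 := by
  induction j with
  | zero => rfl
  | succ j ih =>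
    show EE θ b c ρ α j _ = 0
    simpa using ih

theorem EE_sum {ι : Type*} (s : Finset ι) (j : ℕ) (φ : ι → ℝ → V) :
    EE θ b c ρ α j (fun x => ∑ i ∈ s, φ i x) = ∑ i ∈ s, EE θ b c ρ α j (φ i) := by
  classical
  induction s using Finset.induction_on with
  | empty => simpa using EE_zero j
  | insert a s ha ih =>
    simp_rw [Finset.sum_insert ha]
    rw [EE_add, ih]

theorem EE_smul (a : ℝ) (j : ℕ) (φ : ℝ → V) :
    EE θ b c ρ α j (fun x => a • φ x) = a • EE θ b c ρ α j φ :=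
  EE_map (a • (LinearMap.id : V →ₗ[ℝ] V)) j φ

theorem sum_uu : ∑ w : Fin 3 × Fin 3, uu w.1 * uu w.2 = 0 := by
  rw [Fintype.sum_prod_type]
  simp [uu, Fin.sum_univ_three]

theorem sum_weights (a : ℝ) : ∑ w : Fin 3 × Fin 3, (1 + a * (uu w.1 * uu w.2)) = 9 := by
  rw [Finset.sum_add_distrib, ← Finset.mul_sum, sum_uu]
  simp

theorem EE_const (j : ℕ) (v : V) : EE θ b c ρ α j (fun _ => v) = v := by
  induction j with
  | zero => rfl
  | succ j ih =>
    show EE θ b c ρ α j _ = v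
    have h : (fun x : ℝ => (1 / 9 : ℝ) • ∑ w : Fin 3 × Fin 3,
        (1 + ρ * α j x * (uu w.1 * uu w.2)) • v) = fun _ => v := by
      ext x
      rw [← Finset.sum_smul, sum_weights, smul_smul]
      norm_num
    rw [h, ih]

theorem weight_nonneg (hρ0 : 0 ≤ ρ) (hρ1 : ρ ≤ 1) (hα : ∀ j x, |α j x| ≤ 1) (j : ℕ) (x : ℝ)
    (w : Fin 3 × Fin 3) : 0 ≤ 1 + ρ * α j x * (uu w.1 * uu w.2) := by
  have h1 : |ρ * α j x * (uu w.1 * uu w.2)| ≤ 1 := by
    rw [abs_mul, abs_mul, abs_mul, abs_of_nonneg hρ0]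
    exact mul_le_one₀ (mul_le_one₀ hρ1 (abs_nonneg _) (hα j x))
      (mul_nonneg (abs_nonneg _) (abs_nonneg _))
      (mul_le_one₀ (abs_uu _) (abs_nonneg _) (abs_uu _))
  have := (abs_le.1 h1).1
  linarith

theorem EE_mono (hρ0 : 0 ≤ ρ) (hρ1 : ρ ≤ 1) (hα : ∀ j x, |α j x| ≤ 1) (j : ℕ) :
    ∀ {φ ψ : ℝ → ℝ}, (∀ x ∈ Reach θ b c j, φ x ≤ ψ x) → EE θ b c ρ α j φ ≤ EE θ b c ρ α j ψ := by
  induction j with
  | zero => exact fun h => h 0 rfl
  | succ j ih =>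
    intro φ ψ h
    refine ih fun x hx => ?_
    simp only [smul_eq_mul]
    refine mul_le_mul_of_nonneg_left (Finset.sum_le_sum fun w _ => ?_) (by norm_num)
    exact mul_le_mul_of_nonneg_left (h _ ⟨x, hx, w, rfl⟩) (weight_nonneg hρ0 hρ1 hα j x w)

theorem EE_norm (hρ0 : 0 ≤ ρ) (hρ1 : ρ ≤ 1) (hα : ∀ j x, |α j x| ≤ 1) (j : ℕ) :
    ∀ φ : ℝ → V, ‖EE θ b c ρ α j φ‖ ≤ EE θ b c ρ α j (fun x => ‖φ x‖) := by
  induction j with
  | zero => exact fun φ => le_rfl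
  | succ j ih =>
    intro φ
    show ‖EE θ b c ρ α j _‖ ≤ EE θ b c ρ α j _
    refine (ih _).trans (EE_mono hρ0 hρ1 hα j fun x _ => ?_)
    rw [norm_smul, Real.norm_of_nonneg (by norm_num : (0 : ℝ) ≤ 1 / 9), smul_eq_mul]
    refine mul_le_mul_of_nonneg_left ((norm_sum_le _ _).trans (le_of_eq ?_)) (by norm_num)
    refine Finset.sum_congr rfl fun w _ => ?_
    rw [norm_smul, Real.norm_of_nonneg (weight_nonneg hρ0 hρ1 hα j x w), smul_eq_mul]

theorem EE_norm_le (hρ0 : 0 ≤ ρ) (hρ1 : ρ ≤ 1) (hα : ∀ j x, |α j x| ≤ 1) (j : ℕ) {φ : ℝ → V}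
    {M : ℝ} (h : ∀ x ∈ Reach θ b c j, ‖φ x‖ ≤ M) : ‖EE θ b c ρ α j φ‖ ≤ M := by
  refine (EE_norm hρ0 hρ1 hα j φ).trans ?_
  have := EE_mono (θ := θ) (b := b) (c := c) hρ0 hρ1 hα j (φ := fun x => ‖φ x‖) (ψ := fun _ => M) h
  rwa [EE_const] at this

end

/-- the mean of a character over a window -/
noncomputable def gam (θ b c m : ℝ) (j : ℕ) : ℂ :=
  g1 b c (m / (θ ^ 2) ^ (j + 1) * θ) * g1 b c (m / (θ ^ 2) ^ (j + 1))

/-- its mean against the product of the two digit functions -/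
noncomputable def bet (θ b m : ℝ) (j : ℕ) : ℂ :=
  b1 b (m / (θ ^ 2) ^ (j + 1) * θ) * b1 b (m / (θ ^ 2) ^ (j + 1))

theorem e_zero' : e 0 = 1 := by unfold e; simp

theorem sum_e (θ b c m : ℝ) (j : ℕ) (x : ℝ) (a : ℝ) :
    (1 / 9 : ℝ) • ∑ w : Fin 3 × Fin 3, (1 + a * (uu w.1 * uu w.2)) • e (m * (x + sh θ b c j w)) =
      (gam θ b c m j + a * bet θ b m j) * e (m * x) := by
  have h : ∀ w : Fin 3 × Fin 3, e (m * (x + sh θ b c j w)) = e (m * x) *
      (e (m / (θ ^ 2) ^ (j + 1) * θ * dg b c w.1) * e (m / (θ ^ 2) ^ (j + 1) * dg b c w.2)) := by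
    intro w
    rw [← e_add, ← e_add]
    congr 1
    unfold sh
    ring
  simp_rw [h]
  rw [Fintype.sum_prod_type]
  simp only [Fin.sum_univ_three, uu, dg, Matrix.cons_val_zero, Matrix.cons_val_one,
    Matrix.cons_val, mul_zero, e_zero', Complex.real_smul]
  unfold gam bet g1 b1
  push_cast
  ring

theorem g1_sq_add (b c t : ℝ) : ‖g1 b c t‖ ^ 2 + ‖b1 b t‖ ^ 2 ≤ 1 := by
  unfold g1 b1
  set p := e (t * b)
  set q := e (t * c)
  have hp : ‖p‖ = 1 := norm_e _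
  have hq : ‖q‖ = 1 := norm_e _
  have h1 : ‖1 + p + q‖ ≤ ‖1 + p‖ + 1 := (norm_add_le _ _).trans (by rw [hq])
  have h2 := parallelogram_law_with_norm ℝ (1 : ℂ) p
  rw [norm_one, hp] at h2
  have h3 : ‖p - 1‖ = ‖1 - p‖ := norm_sub_rev _ _
  have h4 : ‖1 + p‖ ≤ 2 := (norm_add_le _ _).trans (by rw [norm_one, hp]; norm_num)
  rw [norm_div, norm_div, Complex.norm_ofNat, div_pow, div_pow, h3]
  have h5 : ‖1 + p + q‖ ^ 2 ≤ (‖1 + p‖ + 1) ^ 2 := by gcongr
  have h6 : ‖1 + p + q‖ ^ 2 + ‖1 - p‖ ^ 2 ≤ 9 := by nlinarith [norm_nonneg (1 + p)]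
  have h7 : ‖1 + p + q‖ ^ 2 / 3 ^ 2 + ‖1 - p‖ ^ 2 / 3 ^ 2 =
      (‖1 + p + q‖ ^ 2 + ‖1 - p‖ ^ 2) / 9 := by ring
  rw [h7]
  linarith

theorem g1_le_one (b c t : ℝ) : ‖g1 b c t‖ ≤ 1 := by
  have h1 := g1_sq_add b c t
  have h2 := sq_nonneg ‖b1 b t‖
  nlinarith [norm_nonneg (g1 b c t)]

theorem gam_add_bet_le (θ b c m : ℝ) (j : ℕ) : ‖gam θ b c m j‖ + ‖bet θ b m j‖ ≤ 1 := by
  unfold gam bet
  rw [norm_mul, norm_mul]
  have h1 := g1_sq_add b c (m / (θ ^ 2) ^ (j + 1) * θ)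
  have h2 := g1_sq_add b c (m / (θ ^ 2) ^ (j + 1))
  nlinarith [sq_nonneg (‖g1 b c (m / (θ ^ 2) ^ (j + 1) * θ)‖ - ‖g1 b c (m / (θ ^ 2) ^ (j + 1))‖),
    sq_nonneg (‖b1 b (m / (θ ^ 2) ^ (j + 1) * θ)‖ - ‖b1 b (m / (θ ^ 2) ^ (j + 1))‖)]

theorem norm_gam_le (θ b c m : ℝ) (j : ℕ) : ‖gam θ b c m j‖ ≤ 1 := by
  have := gam_add_bet_le θ b c m j
  have := norm_nonneg (bet θ b m j)
  linarith

/-- **Decorrelation**: the bias changes the mean of every character by at most `ρ`. -/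
theorem EE_char {θ b c ρ : ℝ} {α : ℕ → ℝ → ℝ} (hρ0 : 0 ≤ ρ) (hρ1 : ρ ≤ 1)
    (hα : ∀ j x, |α j x| ≤ 1) (m : ℝ) (j : ℕ) :
    ‖EE θ b c ρ α j (fun x => e (m * x))‖ ≤ ∏ i ∈ range j, ‖gam θ b c m i‖ + ρ := by
  have key : ‖EE θ b c ρ α j (fun x => e (m * x))‖ ≤
      ∏ i ∈ range j, ‖gam θ b c m i‖ + ρ * (1 - ∏ i ∈ range j, ‖gam θ b c m i‖) := by
    induction j with
    | zero =>
      show ‖e (m * 0)‖ ≤ _
      rw [norm_e]
      simp
    | succ j ih =>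
      have h1 : EE θ b c ρ α (j + 1) (fun x => e (m * x)) =
          gam θ b c m j * EE θ b c ρ α j (fun x => e (m * x)) +
            bet θ b m j * EE θ b c ρ α j (fun x => (ρ * α j x) • e (m * x)) := by
        show EE θ b c ρ α j _ = _
        have h2 : (fun x : ℝ => (1 / 9 : ℝ) • ∑ w : Fin 3 × Fin 3,
            (1 + ρ * α j x * (uu w.1 * uu w.2)) • e (m * (x + sh θ b c j w))) =
            fun x => gam θ b c m j * e (m * x) + bet θ b m j * ((ρ * α j x) • e (m * x)) := by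
          ext x
          rw [sum_e, Complex.real_smul]
          push_cast
          ring
        rw [h2, EE_add]
        have h3 := EE_map (θ := θ) (b := b) (c := c) (ρ := ρ) (α := α)
          (LinearMap.mulLeft ℝ (gam θ b c m j)) j (fun x => e (m * x))
        have h4 := EE_map (θ := θ) (b := b) (c := c) (ρ := ρ) (α := α)
          (LinearMap.mulLeft ℝ (bet θ b m j)) j (fun x => (ρ * α j x) • e (m * x))
        simp only [LinearMap.mulLeft_apply] at h3 h4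
        rw [h3, h4]
      have h5 : ‖EE θ b c ρ α j (fun x => (ρ * α j x) • e (m * x))‖ ≤ ρ := by
        refine EE_norm_le hρ0 hρ1 hα j fun x _ => ?_
        rw [norm_smul, norm_e, mul_one, Real.norm_eq_abs, abs_mul, abs_of_nonneg hρ0]
        exact mul_le_of_le_one_right hρ0 (hα j x)
      rw [h1, prod_range_succ]
      set P := ∏ i ∈ range j, ‖gam θ b c m i‖
      have hg0 := norm_nonneg (gam θ b c m j)
      have hb0 := norm_nonneg (bet θ b m j)
      have h6 := gam_add_bet_le θ b c m j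
      calc ‖gam θ b c m j * EE θ b c ρ α j (fun x => e (m * x)) +
            bet θ b m j * EE θ b c ρ α j (fun x => (ρ * α j x) • e (m * x))‖ ≤
          ‖gam θ b c m j‖ * (P + ρ * (1 - P)) + ‖bet θ b m j‖ * ρ := by
            refine (norm_add_le _ _).trans (add_le_add ?_ ?_)
            · rw [norm_mul]
              exact mul_le_mul_of_nonneg_left ih hg0
            · rw [norm_mul]
              exact mul_le_mul_of_nonneg_left h5 hb0
        _ ≤ P * ‖gam θ b c m j‖ + ρ * (1 - P * ‖gam θ b c m j‖) := by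
            nlinarith [mul_le_mul_of_nonneg_right (by linarith :
              ‖bet θ b m j‖ ≤ 1 - ‖gam θ b c m j‖) hρ0]
  have hP : 0 ≤ ∏ i ∈ range j, ‖gam θ b c m i‖ := prod_nonneg fun _ _ => norm_nonneg _
  nlinarith

end Forcing.DW
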