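import Pool.Agent.Lib.MP_c80ac4_an.DW.Low
import Pool.Agent.Lib.MP_c80ac4_an.DZ.Est

/-! # Estimates for the windows, three digits -/

namespace Forcing.DW

open Forcing.Ratio Finset

/-- **Products over windows are products over digits.** -/
theorem prod_gam {θ : ℝ} (hθ : 0 < θ) (p r m : ℝ) (a k : ℕ) :
    ∏ i ∈ Ico a (a + k), ‖gam θ p r m i‖ =
      ∏ l ∈ range (2 * k), ‖g1 p r (m / (θ ^ 2) ^ (a + k) * θ ^ l)‖ := by
  induction k with
  | zero => simp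
  | succ k ih =>
    have h0 : (θ ^ 2) ^ (a + k) ≠ 0 := by positivity
    rw [← add_assoc, Finset.prod_Ico_succ_top (by omega), ih, mul_add_one,
      prod_range_succ', prod_range_succ', mul_assoc]
    congr 1
    · refine prod_congr rfl fun l _ => ?_
      congr 2
      rw [pow_succ (θ ^ 2) (a + k)]
      field_simp
      ring
    · unfold gam
      rw [norm_mul]
      congr 1
      · congr 2
        ring
      · congr 2
        ring

theorem prod_g1_anti {k K : ℕ} (h : k ≤ K) (p r : ℝ) (f : ℕ → ℝ) :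
    ∏ l ∈ range K, ‖g1 p r (f l)‖ ≤ ∏ l ∈ range k, ‖g1 p r (f l)‖ := by
  rw [← Finset.prod_range_mul_prod_Ico _ h]
  refine mul_le_of_le_one_right (prod_nonneg fun _ _ => norm_nonneg _) ?_
  exact prod_le_one (fun _ _ => norm_nonneg _) fun _ _ => g1_le_one _ _ _

theorem re_e (x : ℝ) : (e x).re = Real.cos (2 * Real.pi * x) := by
  unfold e
  rw [Complex.exp_ofReal_mul_I_re]

theorem one_sub_g1 (p r t : ℝ) : 1 - ‖g1 p r t‖ ≤
    2 * Real.pi ^ 2 * (p ^ 2 + r ^ 2) / 3 * t ^ 2 := by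
  have h1 : (g1 p r t).re ≤ ‖g1 p r t‖ := Complex.re_le_norm _
  have h2 : (g1 p r t).re = (1 + Real.cos (2 * Real.pi * (t * p)) +
      Real.cos (2 * Real.pi * (t * r))) / 3 := by
    unfold g1
    rw [Complex.div_ofNat_re, Complex.add_re, Complex.add_re, Complex.one_re, re_e, re_e]
  have h3 := Real.one_sub_sq_div_two_le_cos (x := 2 * Real.pi * (t * p))
  have h4 := Real.one_sub_sq_div_two_le_cos (x := 2 * Real.pi * (t * r))
  have h5 : (2 * Real.pi * (t * p)) ^ 2 / 2 + (2 * Real.pi * (t * r)) ^ 2 / 2 =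
      2 * Real.pi ^ 2 * (p ^ 2 + r ^ 2) * t ^ 2 := by ring
  have h6 : 2 * Real.pi ^ 2 * (p ^ 2 + r ^ 2) / 3 * t ^ 2 =
      (2 * Real.pi ^ 2 * (p ^ 2 + r ^ 2) * t ^ 2) / 3 := by ring
  rw [h6]
  linarith

theorem one_sub_gam (θ p r m : ℝ) (i : ℕ) : 1 - ‖gam θ p r m i‖ ≤
    2 * Real.pi ^ 2 * (p ^ 2 + r ^ 2) / 3 * (θ ^ 2 + 1) *
      (m ^ 2 * ((θ ^ 2)⁻¹ ^ 2) ^ (i + 1)) := by
  unfold gam
  rw [norm_mul]
  set t := m / (θ ^ 2) ^ (i + 1) with ht
  have h1 := one_sub_g1 p r (t * θ)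
  have h2 := one_sub_g1 p r t
  have h3 := g1_le_one p r (t * θ)
  have h4 := g1_le_one p r t
  have h5 := norm_nonneg (g1 p r (t * θ))
  have h6 : 1 - ‖g1 p r (t * θ)‖ * ‖g1 p r t‖ ≤
      (1 - ‖g1 p r (t * θ)‖) + (1 - ‖g1 p r t‖) := by nlinarith
  have h8 : ((θ ^ 2)⁻¹ ^ 2) ^ (i + 1) = (((θ ^ 2) ^ (i + 1))⁻¹) ^ 2 := by
    rw [← pow_mul, mul_comm 2 (i + 1), pow_mul, inv_pow]
  have h9 : m ^ 2 * ((θ ^ 2)⁻¹ ^ 2) ^ (i + 1) = t ^ 2 := by
    rw [h8, ht, div_eq_mul_inv]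
    ring
  rw [h9]
  have h10 : 2 * Real.pi ^ 2 * (p ^ 2 + r ^ 2) / 3 * (θ ^ 2 + 1) * t ^ 2 =
      2 * Real.pi ^ 2 * (p ^ 2 + r ^ 2) / 3 * (t * θ) ^ 2 +
        2 * Real.pi ^ 2 * (p ^ 2 + r ^ 2) / 3 * t ^ 2 := by ring
  rw [h10]
  linarith

theorem norm_b1 (p t : ℝ) : ‖b1 p t‖ = 2 / 3 * |Real.sin (Real.pi * (t * p))| := by
  rw [← DZ.norm_one_sub_e]
  unfold b1
  rw [norm_div, norm_div, Complex.norm_ofNat, Complex.norm_ofNat, norm_sub_rev]
  ring

/-- **The own window.** -/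
theorem own {θ p : ℝ} (hθ : 1 < θ) (hp : p ≠ 0) (r : ℝ) : ∃ t0 b0 : ℝ, 0 < t0 ∧ t0 ≤ 1 ∧ 0 < b0 ∧
    ∀ (n j J : ℕ), j < J → t0 * (θ ^ 2) ^ j ≤ n → (n : ℝ) < t0 * (θ ^ 2) ^ (j + 1) →
      b0 ≤ WW θ p r J n j := by
  have hθ0 : 0 < θ := by linarith
  have hT : 1 < θ ^ 2 := by nlinarith
  set x : ℝ := (θ ^ 2)⁻¹ ^ 2 with hx
  have hx0 : 0 < x := by positivity
  have hx1 : x < 1 := by
    rw [hx]
    have h1 : (θ ^ 2)⁻¹ < 1 := inv_lt_one_of_one_lt₀ hT
    have h2 : 0 < (θ ^ 2)⁻¹ := by positivity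
    nlinarith
  have hx2 : 0 < 1 - x := by linarith
  have hpi := Real.pi_pos
  set K : ℝ := 2 * (2 * Real.pi ^ 2 * (p ^ 2 + r ^ 2) / 3 * (θ ^ 2 + 1) * (x / (1 - x))) with hK
  have hK0 : 0 ≤ K := by positivity
  have hpa : 0 < |p| := abs_pos.2 hp
  set t0 : ℝ := 1 / (1 + 4 * |p| * θ + K) with ht0
  have hden : 0 < 1 + 4 * |p| * θ + K := by positivity
  have ht00 : 0 < t0 := by positivity
  have hmul : t0 * (1 + 4 * |p| * θ + K) = 1 := by
    rw [ht0]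
    field_simp
  have hy0' : 0 ≤ t0 * (4 * |p| * θ) := by positivity
  have hy1' : 0 ≤ t0 * K := by positivity
  have ht01 : t0 ≤ 1 := by nlinarith
  have ht02 : t0 * (4 * |p| * θ) ≤ 1 := by nlinarith
  have ht03 : t0 * K ≤ 1 := by nlinarith
  refine ⟨t0, 8 / 9 * p ^ 2 * θ * (t0 / θ ^ 2) ^ 2, ht00, ht01, by positivity, ?_⟩
  intro n j J hj hn1 hn2
  have hTp : 0 < (θ ^ 2) ^ (j + 1) := by positivity
  set y : ℝ := n / (θ ^ 2) ^ (j + 1) with hy
  have hy1 : t0 / θ ^ 2 ≤ y := by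
    rw [hy, div_le_div_iff₀ (by positivity) hTp, pow_succ, ← mul_assoc]
    exact mul_le_mul_of_nonneg_right hn1 (by positivity)
  have hy2 : y < t0 := by
    rw [hy, div_lt_iff₀ hTp]
    exact hn2
  have hy0 : 0 < y := lt_of_lt_of_le (by positivity) hy1
  have hbet : 16 / 9 * p ^ 2 * θ * (t0 / θ ^ 2) ^ 2 ≤ ‖bet θ p n j‖ := by
    unfold bet
    rw [← hy, norm_mul, norm_b1, norm_b1]
    have hyD : |p| * θ * y ≤ 1 / 4 := by
      have : |p| * θ * y ≤ |p| * θ * t0 := by gcongr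
      linarith
    have hyD2 : |p| * y ≤ 1 / 4 := by
      have : |p| * y ≤ |p| * θ * y := by
        have h3 : |p| * y * 1 ≤ |p| * y * θ := mul_le_mul_of_nonneg_left hθ.le (by positivity)
        linarith
      linarith
    have a1 : |Real.pi * (y * θ * p)| = Real.pi * (|p| * θ * y) := by
      rw [abs_mul, abs_mul, abs_mul, abs_of_pos hpi, abs_of_pos hθ0, abs_of_pos hy0]
      ring
    have a2 : |Real.pi * (y * p)| = Real.pi * (|p| * y) := by
      rw [abs_mul, abs_mul, abs_of_pos hpi, abs_of_pos hy0]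
      ring
    have s1 := Real.mul_abs_le_abs_sin (x := Real.pi * (y * θ * p)) (by
      rw [a1]
      nlinarith)
    have s2 := Real.mul_abs_le_abs_sin (x := Real.pi * (y * p)) (by
      rw [a2]
      nlinarith)
    rw [a1] at s1
    rw [a2] at s2
    have c1 : 2 / Real.pi * (Real.pi * (|p| * θ * y)) = 2 * (|p| * θ * y) := by field_simp
    have c2 : 2 / Real.pi * (Real.pi * (|p| * y)) = 2 * (|p| * y) := by field_simp
    rw [c1] at s1
    rw [c2] at s2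
    have h9 : (2 / 3 * (2 * (|p| * θ * y))) * (2 / 3 * (2 * (|p| * y))) ≤
        2 / 3 * |Real.sin (Real.pi * (y * θ * p))| * (2 / 3 * |Real.sin (Real.pi * (y * p))|) :=
      mul_le_mul (by linarith) (by linarith) (by positivity) (by positivity)
    refine le_trans ?_ h9
    have h10 : (2 / 3 * (2 * (|p| * θ * y))) * (2 / 3 * (2 * (|p| * y))) =
        16 / 9 * |p| ^ 2 * θ * y ^ 2 := by ring
    rw [h10, sq_abs]
    gcongr
  have hFF : 1 / 2 ≤ ‖FF θ p r J n (j + 1)‖ := by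
    unfold FF
    rw [norm_prod]
    refine le_trans ?_ (DZ.one_sub_sum_le _ _ (fun _ => norm_nonneg _)
      fun _ => norm_gam_le _ _ _ _ _)
    have h1 : ∑ i ∈ Ico (j + 1) J, (1 - ‖gam θ p r n i‖) ≤ ∑ i ∈ Ico (j + 1) J,
        2 * Real.pi ^ 2 * (p ^ 2 + r ^ 2) / 3 * (θ ^ 2 + 1) * (n : ℝ) ^ 2 * x * x ^ i := by
      refine sum_le_sum fun i _ => (one_sub_gam θ p r n i).trans (le_of_eq ?_)
      rw [← hx, pow_succ]
      ring
    rw [← mul_sum] at h1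
    have h2 := geom_sum_Ico_le_of_lt_one (m := j + 1) (n := J) hx0.le hx1
    have h3 : 2 * Real.pi ^ 2 * (p ^ 2 + r ^ 2) / 3 * (θ ^ 2 + 1) * (n : ℝ) ^ 2 * x *
        ∑ i ∈ Ico (j + 1) J, x ^ i ≤
        2 * Real.pi ^ 2 * (p ^ 2 + r ^ 2) / 3 * (θ ^ 2 + 1) * (n : ℝ) ^ 2 * x *
          (x ^ (j + 1) / (1 - x)) :=
      mul_le_mul_of_nonneg_left h2 (by positivity)
    have h4 : (n : ℝ) ^ 2 * x ^ (j + 1) ≤ t0 ^ 2 := by
      have h5 : x ^ (j + 1) = (((θ ^ 2) ^ (j + 1))⁻¹) ^ 2 := by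
        rw [hx, ← pow_mul, mul_comm 2 (j + 1), pow_mul, inv_pow]
      have h6 : (n : ℝ) ^ 2 * x ^ (j + 1) = y ^ 2 := by
        rw [h5, hy, div_eq_mul_inv]
        ring
      rw [h6]
      gcongr
    have h7 : 2 * Real.pi ^ 2 * (p ^ 2 + r ^ 2) / 3 * (θ ^ 2 + 1) * (n : ℝ) ^ 2 * x *
        (x ^ (j + 1) / (1 - x)) = K / 2 * ((n : ℝ) ^ 2 * x ^ (j + 1)) := by
      rw [hK]
      field_simp
    have h8 : K / 2 * ((n : ℝ) ^ 2 * x ^ (j + 1)) ≤ K / 2 * t0 ^ 2 := by gcongr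
    have h9 : K / 2 * t0 ^ 2 ≤ 1 / 2 := by
      have h10 : t0 ^ 2 ≤ t0 := by nlinarith
      have h11 : K * t0 ^ 2 ≤ K * t0 := mul_le_mul_of_nonneg_left h10 hK0
      linarith
    linarith
  unfold WW
  calc 8 / 9 * p ^ 2 * θ * (t0 / θ ^ 2) ^ 2 = (16 / 9 * p ^ 2 * θ * (t0 / θ ^ 2) ^ 2) * (1 / 2) := by
        ring
    _ ≤ ‖bet θ p n j‖ * ‖FF θ p r J n (j + 1)‖ :=
        mul_le_mul hbet hFF (by norm_num) (norm_nonneg _)

/-- the points of the digit set that are reached -/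
theorem mem_digitSet {θ : ℝ} (hθ : 1 < θ) (d₀ d₁ d₂ : ℝ) (J : ℕ) {x : ℝ}
    (hx : x ∈ Reach θ (d₁ - d₀) (d₂ - d₀) J) :
    d₀ / (θ - 1) + x ∈ digitSet θ {d₀, d₁, d₂} := by
  have hθ0 : 0 < θ := by linarith
  have hdg : ∀ i, dg (d₁ - d₀) (d₂ - d₀) i = 0 ∨ dg (d₁ - d₀) (d₂ - d₀) i = d₁ - d₀ ∨
      dg (d₁ - d₀) (d₂ - d₀) i = d₂ - d₀ := by
    intro i
    fin_cases i
    · left
      rfl
    · right
      left
      rfl
    · right
      right
      rfl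
  have key : ∀ J, ∀ x ∈ Reach θ (d₁ - d₀) (d₂ - d₀) J, ∃ b : ℕ → ℝ,
      (∀ k, b k = 0 ∨ b k = d₁ - d₀ ∨ b k = d₂ - d₀) ∧
      x = ∑ k ∈ range (2 * J), b k * θ⁻¹ ^ (k + 1) := by
    intro J
    induction J with
    | zero =>
      intro x hx
      refine ⟨fun _ => 0, fun _ => Or.inl rfl, ?_⟩
      have : x = 0 := hx
      simp [this]
    | succ J ih =>
      rintro y ⟨x, hx, w, rfl⟩
      obtain ⟨b, hb, hxb⟩ := ih x hx
      refine ⟨fun k => if k < 2 * J then b k else if k = 2 * J then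
        dg (d₁ - d₀) (d₂ - d₀) w.1 else dg (d₁ - d₀) (d₂ - d₀) w.2, ?_, ?_⟩
      · intro k
        simp only
        split_ifs
        · exact hb k
        · exact hdg _
        · exact hdg _
      · rw [mul_add_one, sum_range_succ, sum_range_succ, hxb, add_assoc]
        congr 1
        · refine sum_congr rfl fun k hk => ?_
          simp only
          rw [if_pos (mem_range.1 hk)]
        · simp only
          rw [if_neg (by omega), if_pos trivial, if_neg (by omega), if_neg (by omega)]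
          unfold sh
          have h1 : (θ ^ 2) ^ (J + 1) = θ ^ (2 * J + 1) * θ := by ring
          have h2 : (θ ^ 2) ^ (J + 1) = θ ^ (2 * J + 1 + 1) := by ring
          rw [inv_pow, inv_pow, add_div]
          congr 1
          · rw [h1]
            field_simp
          · rw [h2, div_eq_mul_inv]
  obtain ⟨b, hb, hxb⟩ := key J x hx
  refine ⟨fun k => d₀ + (if k < 2 * J then b k else 0), fun k => ?_, ?_⟩
  · simp only [Set.mem_insert_iff, Set.mem_singleton_iff]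
    split_ifs
    · rcases hb k with h | h | h <;> rw [h]
      · left
        ring
      · right
        left
        ring
      · right
        right
        ring
    · left
      ring
  · have h1 : HasSum (fun k : ℕ => d₀ * θ⁻¹ ^ (k + 1)) (d₀ / (θ - 1)) := by
      have h2 := (hasSum_geometric_of_lt_one (r := θ⁻¹) (by positivity)
        (inv_lt_one_of_one_lt₀ hθ)).mul_left (d₀ * θ⁻¹)
      have h3 : (fun k : ℕ => d₀ * θ⁻¹ ^ (k + 1)) = fun k : ℕ => d₀ * θ⁻¹ * θ⁻¹ ^ k := by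
        ext k
        rw [pow_succ]
        ring
      have h4 : d₀ / (θ - 1) = d₀ * θ⁻¹ * (1 - θ⁻¹)⁻¹ := by
        have : θ - 1 ≠ 0 := by linarith
        have h5 : 1 - θ⁻¹ = (θ - 1) / θ := by field_simp
        rw [h5]
        field_simp
      rw [h3, h4]
      exact h2
    have h2 : HasSum (fun k : ℕ => (if k < 2 * J then b k else 0) * θ⁻¹ ^ (k + 1)) x := by
      rw [hxb]
      have h3 : ∑ k ∈ range (2 * J), b k * θ⁻¹ ^ (k + 1) =
          ∑ k ∈ range (2 * J), (if k < 2 * J then b k else 0) * θ⁻¹ ^ (k + 1) :=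
        sum_congr rfl fun k hk => by rw [if_pos (mem_range.1 hk)]
      rw [h3]
      refine hasSum_sum_of_ne_finset_zero fun k hk => ?_
      rw [if_neg (by simpa using hk)]
      ring
    have h3 : (fun k : ℕ => (d₀ + (if k < 2 * J then b k else 0)) * θ⁻¹ ^ (k + 1)) =
        fun k : ℕ => d₀ * θ⁻¹ ^ (k + 1) + (if k < 2 * J then b k else 0) * θ⁻¹ ^ (k + 1) := by
      ext k
      ring
    rw [h3]
    exact h1.add h2

end Forcing.DW
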