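import Pool.Agent.Lib.MP_c80ac4_an.DW.EE

/-! # The gain of the biased measure -/

namespace Forcing.DW

open Forcing.Ratio Finset

section
variable (θ p r : ℝ) (s : Finset ℕ) (c : ℕ → ℂ) (J : ℕ)

/-- the mean over the windows from `j` on -/
noncomputable def FF (n j : ℕ) : ℂ := ∏ i ∈ Ico j J, gam θ p r n i

/-- the conditional expectation of the polynomial -/
noncomputable def GG (j : ℕ) (x : ℝ) : ℂ := ∑ n ∈ s, c n * FF θ p r J n j * e (n * x)

/-- the coefficient against the bias in window `j` -/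
noncomputable def bb (n j : ℕ) : ℂ := c n * (bet θ p n j * FF θ p r J n (j + 1))

/-- the conditional expectation against the sign of window `j` -/
noncomputable def BB (j : ℕ) (x : ℝ) : ℂ := ∑ n ∈ s, bb θ p r c J n j * e (n * x)

/-- the bias -/
noncomputable def al (j : ℕ) (x : ℝ) : ℝ := Real.sign (BB θ p r s c J j x).re

variable {θ p r s c J}

theorem sign_mul (r : ℝ) : Real.sign r * r = |r| := by
  rcases lt_trichotomy r 0 with h | h | h
  · rw [Real.sign_of_neg h, abs_of_neg h]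
    ring
  · rw [h]
    simp
  · rw [Real.sign_of_pos h, abs_of_pos h, one_mul]

theorem abs_al (j : ℕ) (x : ℝ) : |al θ p r s c J j x| ≤ 1 := by
  unfold al
  rcases Real.sign_apply_eq (BB θ p r s c J j x).re with h | h | h <;> rw [h] <;> simp

theorem FF_succ {n j : ℕ} (hj : j < J) : FF θ p r J n j = gam θ p r n j * FF θ p r J n (j + 1) := by
  unfold FF
  rw [← Finset.prod_Ioo_mul_eq_prod_Ico hj, mul_comm]
  congr 1

theorem GG_top (x : ℝ) : GG θ p r s c J J x = ∑ n ∈ s, c n * e (n * x) := by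
  unfold GG FF
  simp

theorem step {j : ℕ} (hj : j < J) (a x : ℝ) :
    (1 / 9 : ℝ) • ∑ w : Fin 3 × Fin 3, (1 + a * (uu w.1 * uu w.2)) •
      GG θ p r s c J (j + 1) (x + sh θ p r j w) = GG θ p r s c J j x + a • BB θ p r s c J j x := by
  have h1 : ∀ w : Fin 3 × Fin 3, (1 + a * (uu w.1 * uu w.2)) •
      GG θ p r s c J (j + 1) (x + sh θ p r j w) = ∑ n ∈ s, (c n * FF θ p r J n (j + 1)) *
        ((1 + a * (uu w.1 * uu w.2)) • e (n * (x + sh θ p r j w))) := by
    intro w
    unfold GG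
    rw [Finset.smul_sum]
    refine Finset.sum_congr rfl fun n _ => ?_
    rw [mul_smul_comm]
  simp_rw [h1]
  rw [Finset.sum_comm, Finset.smul_sum]
  have h2 : ∀ n ∈ s, (1 / 9 : ℝ) • ∑ w : Fin 3 × Fin 3, (c n * FF θ p r J n (j + 1)) *
        ((1 + a * (uu w.1 * uu w.2)) • e (n * (x + sh θ p r j w))) =
      c n * FF θ p r J n j * e (n * x) + a • (bb θ p r c J n j * e (n * x)) := by
    intro n _
    rw [← Finset.mul_sum, ← mul_smul_comm, sum_e, FF_succ hj, Complex.real_smul]
    unfold bb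
    ring
  rw [Finset.sum_congr rfl h2, Finset.sum_add_distrib, ← Finset.smul_sum]
  rfl

/-- the conditional expectations are bounded -/
theorem norm_GG_le {M : ℝ} (hM : ∀ x ∈ Reach θ p r J, ‖∑ n ∈ s, c n * e (n * x)‖ ≤ M) (k : ℕ) :
    ∀ j, j + k = J → ∀ x ∈ Reach θ p r j, ‖GG θ p r s c J j x‖ ≤ M := by
  induction k with
  | zero =>
    intro j hj x hx
    rw [add_zero] at hj
    subst hj
    rw [GG_top]
    exact hM x hx
  | succ k ih =>
    intro j hj x hx
    have h1 := step (θ := θ) (p := p) (r := r) (s := s) (c := c) (J := J) (j := j) (by omega) 0 x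
    rw [zero_smul, add_zero] at h1
    rw [← h1, norm_smul, Real.norm_of_nonneg (by norm_num : (0 : ℝ) ≤ 1 / 9)]
    have h2 : ‖∑ w : Fin 3 × Fin 3, (1 + 0 * (uu w.1 * uu w.2)) •
        GG θ p r s c J (j + 1) (x + sh θ p r j w)‖ ≤ ∑ _w : Fin 3 × Fin 3, M := by
      refine (norm_sum_le _ _).trans (Finset.sum_le_sum fun w _ => ?_)
      rw [zero_mul, add_zero, one_smul]
      exact ih (j + 1) (by omega) _ ⟨x, hx, w, rfl⟩
    have h3 : ∑ _w : Fin 3 × Fin 3, M = 9 * M := by simp
    rw [h3] at h2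
    linarith

theorem tele {ρ : ℝ} (j : ℕ) (hj : j ≤ J) :
    EE θ p r ρ (al θ p r s c J) j (GG θ p r s c J j) = GG θ p r s c J 0 0 +
      ∑ i ∈ range j, EE θ p r ρ (al θ p r s c J) i
        (fun x => (ρ * al θ p r s c J i x) • BB θ p r s c J i x) := by
  induction j with
  | zero =>
    rw [range_zero, sum_empty, add_zero]
    rfl
  | succ j ih =>
    rw [sum_range_succ, ← add_assoc, ← ih (by omega), ← EE_add]
    show EE θ p r ρ (al θ p r s c J) j _ = _
    congr 1
    ext x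
    exact step (by omega) _ x

/-- **The gain.** -/
theorem gain {ρ M : ℝ} (hρ0 : 0 ≤ ρ) (hρ1 : ρ ≤ 1)
    (hM : ∀ x ∈ Reach θ p r J, ‖∑ n ∈ s, c n * e (n * x)‖ ≤ M) :
    ρ * ∑ j ∈ range J, EE θ p r ρ (al θ p r s c J) j (fun x => |(BB θ p r s c J j x).re|) ≤ 2 * M := by
  have h1 := tele (θ := θ) (p := p) (r := r) (s := s) (c := c) (J := J) (ρ := ρ) J le_rfl
  have h2 : ‖EE θ p r ρ (al θ p r s c J) J (GG θ p r s c J J)‖ ≤ M :=
    EE_norm_le hρ0 hρ1 abs_al J fun x hx => by
      rw [GG_top]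
      exact hM x hx
  have h3 : ‖GG θ p r s c J 0 0‖ ≤ M := norm_GG_le hM J 0 (zero_add J) 0 rfl
  have h4 : ∑ i ∈ range J, EE θ p r ρ (al θ p r s c J) i
        (fun x => (ρ * al θ p r s c J i x) • BB θ p r s c J i x) =
      EE θ p r ρ (al θ p r s c J) J (GG θ p r s c J J) - GG θ p r s c J 0 0 := by
    rw [h1]
    ring
  have h5 : (∑ i ∈ range J, EE θ p r ρ (al θ p r s c J) i
        (fun x => (ρ * al θ p r s c J i x) • BB θ p r s c J i x)).re =
      ρ * ∑ j ∈ range J, EE θ p r ρ (al θ p r s c J) j (fun x => |(BB θ p r s c J j x).re|) := by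
    rw [Complex.re_sum, mul_sum]
    refine sum_congr rfl fun j _ => ?_
    have h6 := EE_map (θ := θ) (b := p) (c := r) (ρ := ρ) (α := al θ p r s c J) Complex.reLm j
      (fun x => (ρ * al θ p r s c J j x) • BB θ p r s c J j x)
    simp only [Complex.reLm_coe] at h6
    rw [← h6, ← smul_eq_mul ρ, ← EE_smul]
    congr 1
    ext x
    rw [Complex.smul_re, smul_eq_mul, smul_eq_mul, mul_assoc]
    congr 1
    exact sign_mul _
  rw [← h5, h4]
  refine (Complex.re_le_norm _).trans ((norm_sub_le _ _).trans ?_)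
  linarith

end

end Forcing.DW
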